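import Mathlib

/-!
# The major index of the 123-avoiding linear extensions of `NE_{s,2}` (MP_1fed52, Q1)

Labels and positions are `0`-based: the element `(i-1) t + j` of the problem (`1 ≤ i ≤ s`,
`1 ≤ j ≤ t`) is the label `(i-1) t + (j-1)` here; positions are shifted by one in `maj`.
-/

namespace Pool.Agent.Results.MP_1fed52_co.MajorIndex

open Finset

/-- The order of `NE_{s,t}` in terms of `0`-based labels `x = i t + j`, `y = i' t + j'`
(`j, j' < t`): `x ⊴ y` iff `i' ≤ i` and `j' ≤ j`. -/
def Below (t x y : ℕ) : Prop := y / t ≤ x / t ∧ y % t ≤ x % t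

/-- `π` (in one-line notation) is a linear extension of `NE_{s,t}`: smaller elements come first. -/
def IsLinExt (s t : ℕ) (π : Equiv.Perm (Fin (s * t))) : Prop :=
  ∀ a b, a ≠ b → Below t (π a) (π b) → a < b

/-- The permutation avoids `123`. -/
def Avoids123 {n : ℕ} (π : Equiv.Perm (Fin n)) : Prop :=
  ¬ ∃ a b c, a < b ∧ b < c ∧ π a < π b ∧ π b < π c

/-- The major index of a sequence `w` of length `n`: the sum of the (`1`-based) indices `i` with
`w_i > w_{i+1}`. -/
def maj {α : Type*} [LinearOrder α] {n : ℕ} (w : Fin n → α) : ℕ :=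
  ∑ i : Fin n, if h : i.1 + 1 < n then (if w ⟨i.1 + 1, h⟩ < w i then i.1 + 1 else 0) else 0

open Classical in
/-- The linear extensions of `NE_{s,t}` which avoid `123`. -/
noncomputable def NE (s t : ℕ) : Finset (Equiv.Perm (Fin (s * t))) :=
  univ.filter (fun π => IsLinExt s t π ∧ Avoids123 π)

/-- The number of occurrences of the letter `b` among the first `k` letters. -/
def cnt {n : ℕ} (w : Fin n → Bool) (b : Bool) (k : ℕ) : ℕ :=
  (univ.filter (fun i : Fin n => i.1 < k ∧ w i = b)).card

/-- Catalan words of length `2 n`; the letter `1` is `false` and the letter `2` is `true` (so that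
`1 < 2` is `false < true`): each letter occurs `n` times and every prefix has at least as many
`1`s as `2`s. -/
def IsCatalan (n : ℕ) (w : Fin (2 * n) → Bool) : Prop :=
  cnt w false (2 * n) = n ∧ cnt w true (2 * n) = n ∧ ∀ k ≤ 2 * n, cnt w true k ≤ cnt w false k

open Classical Polynomial in
/-- `c_n(q)`. -/
noncomputable def c (n : ℕ) : ℤ[X] :=
  ∑ w ∈ univ.filter (fun w : Fin (2 * n) → Bool => IsCatalan n w), X ^ maj w

/-! ### Words -/

/-- The ballot property. -/
def Ballot {n : ℕ} (w : Fin n → Bool) : Prop := ∀ k ≤ n, cnt w true k ≤ cnt w false k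

/-- The last letter (`false` for the empty word). -/
def lastB {n : ℕ} (w : Fin n → Bool) : Bool := if h : 0 < n then w ⟨n - 1, by omega⟩ else false

/-- The sum of the indices which are not high peaks. -/
def lstat {n : ℕ} (w : Fin n → Bool) : ℕ :=
  ∑ i : Fin n, if h : i.1 + 1 < n then
    (if ¬ (w i = false ∧ w ⟨i.1 + 1, h⟩ = true ∧ cnt w true (i.1 + 1) + 2 ≤ cnt w false (i.1 + 1))
      then i.1 + 1 else 0) else 0

lemma cnt_zero {n : ℕ} (w : Fin n → Bool) (b : Bool) : cnt w b 0 = 0 := by
  simp [cnt]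

lemma cnt_succ {n : ℕ} (w : Fin n → Bool) (b : Bool) (k : ℕ) (hk : k < n) :
    cnt w b (k + 1) = cnt w b k + if w ⟨k, hk⟩ = b then 1 else 0 := by
  unfold cnt
  split_ifs with h
  · have : (univ.filter (fun i : Fin n => i.1 < k + 1 ∧ w i = b)) =
      insert ⟨k, hk⟩ (univ.filter (fun i : Fin n => i.1 < k ∧ w i = b)) := by
      ext i
      simp only [mem_filter, mem_univ, true_and, mem_insert, Fin.ext_iff]
      constructor
      · rintro ⟨h1, h2⟩
        by_cases h3 : i.1 = k
        · left; exact h3
        · right; exact ⟨by omega, h2⟩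
      · rintro (h1 | ⟨h1, h2⟩)
        · refine ⟨by omega, ?_⟩
          have : i = ⟨k, hk⟩ := Fin.ext h1
          rw [this, h]
        · exact ⟨by omega, h2⟩
    rw [this, card_insert_of_notMem]
    simp
  · have : (univ.filter (fun i : Fin n => i.1 < k + 1 ∧ w i = b)) =
      (univ.filter (fun i : Fin n => i.1 < k ∧ w i = b)) := by
      ext i
      simp only [mem_filter, mem_univ, true_and]
      constructor
      · rintro ⟨h1, h2⟩
        refine ⟨?_, h2⟩
        by_contra h3
        have : i = ⟨k, hk⟩ := Fin.ext (by simp; omega)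
        rw [this] at h2
        exact h h2
      · rintro ⟨h1, h2⟩
        exact ⟨by omega, h2⟩
    rw [this]
    simp

lemma cnt_add {n : ℕ} (w : Fin n → Bool) (k : ℕ) (hk : k ≤ n) :
    cnt w true k + cnt w false k = k := by
  induction k with
  | zero => simp [cnt_zero]
  | succ k ih =>
    rw [cnt_succ w _ k (by omega), cnt_succ w _ k (by omega)]
    have := ih (by omega)
    cases w ⟨k, by omega⟩ <;> simp <;> omega

/-- Append a letter. -/
def app {n : ℕ} (w : Fin n → Bool) (b : Bool) : Fin (n + 1) → Bool :=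
  fun i => if h : i.1 < n then w ⟨i.1, h⟩ else b

lemma app_lt {n : ℕ} (w : Fin n → Bool) (b : Bool) (i : ℕ) (hi : i < n) :
    app w b ⟨i, by omega⟩ = w ⟨i, hi⟩ := by
  simp [app, hi]

lemma app_last {n : ℕ} (w : Fin n → Bool) (b : Bool) : app w b ⟨n, by omega⟩ = b := by
  simp [app]

lemma cnt_app {n : ℕ} (w : Fin n → Bool) (b d : Bool) (k : ℕ) (hk : k ≤ n) :
    cnt (app w b) d k = cnt w d k := by
  induction k with
  | zero => simp [cnt_zero]
  | succ k ih =>
    rw [cnt_succ _ _ k (by omega), cnt_succ w _ k (by omega), ih (by omega), app_lt w b k (by omega)]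

lemma cnt_app_last {n : ℕ} (w : Fin n → Bool) (b d : Bool) :
    cnt (app w b) d (n + 1) = cnt w d n + if b = d then 1 else 0 := by
  rw [cnt_succ _ _ n (by omega), cnt_app w b d n le_rfl, app_last]

lemma ballot_app {n : ℕ} (w : Fin n → Bool) (b : Bool) :
    Ballot (app w b) ↔ Ballot w ∧ (b = true → cnt w true n + 1 ≤ cnt w false n) := by
  constructor
  · intro h
    refine ⟨fun k hk => ?_, fun hb => ?_⟩
    · have := h k (by omega)
      rwa [cnt_app w b _ k hk, cnt_app w b _ k hk] at this
    · have := h (n + 1) le_rfl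
      rw [cnt_app_last, cnt_app_last, hb] at this
      simpa using this
  · rintro ⟨h1, h2⟩ k hk
    by_cases hk' : k ≤ n
    · rw [cnt_app w b _ k hk', cnt_app w b _ k hk']
      exact h1 k hk'
    · have : k = n + 1 := by omega
      subst this
      rw [cnt_app_last, cnt_app_last]
      have := h1 n le_rfl
      cases b
      · simp; omega
      · simpa using h2 rfl

lemma lastB_app {n : ℕ} (w : Fin n → Bool) (b : Bool) : lastB (app w b) = b := by
  unfold lastB
  simp [app]

/-- The words of length `n + 1`. -/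
def appEquiv (n : ℕ) : (Fin n → Bool) × Bool ≃ (Fin (n + 1) → Bool) where
  toFun p := app p.1 p.2
  invFun w := (fun i => w ⟨i.1, by omega⟩, w ⟨n, by omega⟩)
  left_inv p := by
    ext i
    · simp [app]
    · simp [app]
  right_inv w := by
    ext i
    simp only [app]
    split_ifs with h
    · rfl
    · have : i = ⟨n, by omega⟩ := Fin.ext (by simp; omega)
      rw [this]

lemma sum_app {M : Type*} [AddCommMonoid M] (n : ℕ) (F : (Fin (n + 1) → Bool) → M) :
    ∑ w, F w = ∑ w : Fin n → Bool, F (app w false) + ∑ w : Fin n → Bool, F (app w true) := by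
  rw [← (appEquiv n).sum_comp, Fintype.sum_prod_type]
  simp only [Fintype.sum_bool]
  rw [sum_add_distrib, add_comm]
  rfl

lemma maj_app {n : ℕ} (w : Fin n → Bool) (b : Bool) :
    maj (app w b) = maj w + if lastB w = true ∧ b = false then n else 0 := by
  unfold maj
  rw [Fin.sum_univ_castSucc]
  have hlast : (if h : (Fin.last n).1 + 1 < n + 1 then
    (if app w b ⟨(Fin.last n).1 + 1, h⟩ < app w b (Fin.last n) then (Fin.last n).1 + 1 else 0)
      else 0) = 0 := by simp
  rw [hlast, add_zero]
  rcases Nat.eq_zero_or_pos n with hn | hn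
  · subst hn
    simp [lastB]
  · obtain ⟨m, rfl⟩ : ∃ m, n = m + 1 := ⟨n - 1, by omega⟩
    rw [Fin.sum_univ_castSucc, Fin.sum_univ_castSucc (n := m)]
    have h1 : ∀ i : Fin m, (if h : (i.castSucc.castSucc : Fin (m + 1 + 1)).1 + 1 < m + 1 + 1 then
        (if app w b ⟨(i.castSucc.castSucc : Fin (m + 1 + 1)).1 + 1, h⟩ <
          app w b i.castSucc.castSucc then (i.castSucc.castSucc : Fin (m + 1 + 1)).1 + 1 else 0)
          else 0) =
        (if h : (i.castSucc : Fin (m + 1)).1 + 1 < m + 1 then
        (if w ⟨(i.castSucc : Fin (m + 1)).1 + 1, h⟩ < w i.castSucc then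
          (i.castSucc : Fin (m + 1)).1 + 1 else 0) else 0) := by
      intro i
      have hi := i.2
      have e1 : app w b i.castSucc.castSucc = w i.castSucc := app_lt w b i.1 (by omega)
      have e2 : app w b ⟨i.1 + 1, by omega⟩ = w ⟨i.1 + 1, by omega⟩ :=
        app_lt w b (i.1 + 1) (by omega)
      simp only [Fin.val_castSucc, e1, e2]
      rw [dif_pos (by omega), dif_pos (by omega)]
    rw [sum_congr rfl (fun i _ => h1 i)]
    have h2 : (if h : ((Fin.last m).castSucc : Fin (m + 1 + 1)).1 + 1 < m + 1 + 1 then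
        (if app w b ⟨((Fin.last m).castSucc : Fin (m + 1 + 1)).1 + 1, h⟩ <
          app w b (Fin.last m).castSucc then ((Fin.last m).castSucc : Fin (m + 1 + 1)).1 + 1 else 0)
          else 0) = if lastB w = true ∧ b = false then m + 1 else 0 := by
      have e1 : app w b (Fin.last m).castSucc = w ⟨m, by omega⟩ := app_lt w b m (by omega)
      have e2 : app w b ⟨m + 1, by omega⟩ = b := app_last w b
      simp only [Fin.val_castSucc, Fin.val_last, e1, e2]
      rw [dif_pos (by omega)]
      have e3 : lastB w = w ⟨m, by omega⟩ := by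
        unfold lastB
        simp
      rw [e3]
      cases b <;> cases w ⟨m, by omega⟩ <;> simp
    have h3 : (if h : (Fin.last m).1 + 1 < m + 1 then
        (if w ⟨(Fin.last m).1 + 1, h⟩ < w (Fin.last m) then (Fin.last m).1 + 1 else 0) else 0)
        = 0 := by simp
    rw [h2, h3, add_zero]

lemma lstat_app {n : ℕ} (w : Fin n → Bool) (b : Bool) :
    lstat (app w b) = lstat w +
      if ¬ (lastB w = false ∧ b = true ∧ cnt w true n + 2 ≤ cnt w false n) then n else 0 := by
  unfold lstat
  rw [Fin.sum_univ_castSucc]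
  have hlast : (if h : (Fin.last n).1 + 1 < n + 1 then
    (if ¬ (app w b (Fin.last n) = false ∧ app w b ⟨(Fin.last n).1 + 1, h⟩ = true ∧
      cnt (app w b) true ((Fin.last n).1 + 1) + 2 ≤ cnt (app w b) false ((Fin.last n).1 + 1))
      then (Fin.last n).1 + 1 else 0) else 0) = 0 := by simp
  rw [hlast, add_zero]
  rcases Nat.eq_zero_or_pos n with hn | hn
  · subst hn
    simp
  · obtain ⟨m, rfl⟩ : ∃ m, n = m + 1 := ⟨n - 1, by omega⟩
    rw [Fin.sum_univ_castSucc, Fin.sum_univ_castSucc (n := m)]
    have h1 : ∀ i : Fin m, (if h : (i.castSucc.castSucc : Fin (m + 1 + 1)).1 + 1 < m + 1 + 1 then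
        (if ¬ (app w b i.castSucc.castSucc = false ∧
          app w b ⟨(i.castSucc.castSucc : Fin (m + 1 + 1)).1 + 1, h⟩ = true ∧
          cnt (app w b) true ((i.castSucc.castSucc : Fin (m + 1 + 1)).1 + 1) + 2 ≤
          cnt (app w b) false ((i.castSucc.castSucc : Fin (m + 1 + 1)).1 + 1))
          then (i.castSucc.castSucc : Fin (m + 1 + 1)).1 + 1 else 0)
          else 0) =
        (if h : (i.castSucc : Fin (m + 1)).1 + 1 < m + 1 then
        (if ¬ (w i.castSucc = false ∧ w ⟨(i.castSucc : Fin (m + 1)).1 + 1, h⟩ = true ∧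
          cnt w true ((i.castSucc : Fin (m + 1)).1 + 1) + 2 ≤
          cnt w false ((i.castSucc : Fin (m + 1)).1 + 1)) then
          (i.castSucc : Fin (m + 1)).1 + 1 else 0) else 0) := by
      intro i
      have hi := i.2
      have e1 : app w b i.castSucc.castSucc = w i.castSucc := app_lt w b i.1 (by omega)
      have e2 : app w b ⟨i.1 + 1, by omega⟩ = w ⟨i.1 + 1, by omega⟩ :=
        app_lt w b (i.1 + 1) (by omega)
      simp only [Fin.val_castSucc, e1, e2, cnt_app w b _ (i.1 + 1) (by omega)]
      rw [dif_pos (by omega), dif_pos (by omega)]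
    rw [sum_congr rfl (fun i _ => h1 i)]
    have h2 : (if h : ((Fin.last m).castSucc : Fin (m + 1 + 1)).1 + 1 < m + 1 + 1 then
        (if ¬ (app w b (Fin.last m).castSucc = false ∧
          app w b ⟨((Fin.last m).castSucc : Fin (m + 1 + 1)).1 + 1, h⟩ = true ∧
          cnt (app w b) true (((Fin.last m).castSucc : Fin (m + 1 + 1)).1 + 1) + 2 ≤
          cnt (app w b) false (((Fin.last m).castSucc : Fin (m + 1 + 1)).1 + 1))
          then ((Fin.last m).castSucc : Fin (m + 1 + 1)).1 + 1 else 0)
          else 0) = if ¬ (lastB w = false ∧ b = true ∧ cnt w true (m + 1) + 2 ≤ cnt w false (m + 1))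
            then m + 1 else 0 := by
      have e1 : app w b (Fin.last m).castSucc = w ⟨m, by omega⟩ := app_lt w b m (by omega)
      have e2 : app w b ⟨m + 1, by omega⟩ = b := app_last w b
      simp only [Fin.val_castSucc, Fin.val_last, e1, e2, cnt_app w b _ (m + 1) le_rfl]
      rw [dif_pos (by omega)]
      have e3 : lastB w = w ⟨m, by omega⟩ := by
        unfold lastB
        simp
      rw [e3]
    have h3 : (if h : (Fin.last m).1 + 1 < m + 1 then
        (if ¬ (w (Fin.last m) = false ∧ w ⟨(Fin.last m).1 + 1, h⟩ = true ∧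
          cnt w true ((Fin.last m).1 + 1) + 2 ≤ cnt w false ((Fin.last m).1 + 1))
          then (Fin.last m).1 + 1 else 0) else 0)
        = 0 := by simp
    rw [h2, h3, add_zero]

/-! ### The recursions -/

section sums

variable {K : Type*} [Field K] (q : K)

open Classical in
/-- The sum of `q ^ maj w` over the ballot words of length `n` with `j` letters `2` and with the
last letter `b`. -/
noncomputable def V (n j : ℕ) (b : Bool) : K :=
  ∑ w : Fin n → Bool, if Ballot w ∧ cnt w true n = j ∧ lastB w = b then q ^ maj w else 0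

open Classical in
/-- The sum of `q ^ lstat w` over the ballot words of length `n` with `j` letters `2` and with the
last letter `b`. -/
noncomputable def L (n j : ℕ) (b : Bool) : K :=
  ∑ w : Fin n → Bool, if Ballot w ∧ cnt w true n = j ∧ lastB w = b then q ^ lstat w else 0

lemma V_false (n j : ℕ) : V q (n + 1) j false = V q n j false + q ^ n * V q n j true := by
  classical
  unfold V
  rw [sum_app]
  have h0 : ∑ w : Fin n → Bool, (if Ballot (app w true) ∧ cnt (app w true) true (n + 1) = j ∧
      lastB (app w true) = false then q ^ maj (app w true) else 0) = 0 := by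
    apply sum_eq_zero
    intro w _
    rw [if_neg]
    rw [lastB_app]
    simp
  rw [h0, add_zero, mul_sum, ← sum_add_distrib]
  apply sum_congr rfl
  intro w _
  rw [ballot_app, cnt_app_last, lastB_app, maj_app]
  simp only [Bool.false_eq_true, false_imp_iff, and_true, if_false, add_zero]
  by_cases hb : Ballot w ∧ cnt w true n = j
  · cases hl : lastB w
    · simp [hb]
    · simp [hb, pow_add, mul_comm]
  · have e1 : ¬ (Ballot w ∧ cnt w true n = j ∧ lastB w = false) := fun h => hb ⟨h.1, h.2.1⟩
    have e2 : ¬ (Ballot w ∧ cnt w true n = j ∧ lastB w = true) := fun h => hb ⟨h.1, h.2.1⟩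
    rw [if_neg hb, if_neg e1, if_neg e2]
    simp

lemma V_true_zero (n : ℕ) : V q (n + 1) 0 true = 0 := by
  classical
  unfold V
  rw [sum_app]
  rw [sum_eq_zero, sum_eq_zero, add_zero]
  · intro w _
    rw [if_neg]
    rw [cnt_app_last]
    simp
  · intro w _
    rw [if_neg]
    rw [lastB_app]
    simp

lemma V_true (n j : ℕ) : V q (n + 1) (j + 1) true =
    if 2 * (j + 1) ≤ n + 1 then V q n j false + V q n j true else 0 := by
  classical
  unfold V
  rw [sum_app]
  have h0 : ∑ w : Fin n → Bool, (if Ballot (app w false) ∧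
      cnt (app w false) true (n + 1) = j + 1 ∧
      lastB (app w false) = true then q ^ maj (app w false) else 0) = 0 := by
    apply sum_eq_zero
    intro w _
    rw [if_neg]
    rw [lastB_app]
    simp
  rw [h0, zero_add]
  split_ifs with hj
  · rw [← sum_add_distrib]
    apply sum_congr rfl
    intro w _
    rw [ballot_app, cnt_app_last, lastB_app, maj_app]
    have hc := cnt_add w n le_rfl
    simp only [true_imp_iff, if_true, and_true, Nat.add_right_cancel_iff, Bool.true_eq_false,
      and_false, if_false, add_zero]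
    by_cases hb : Ballot w ∧ cnt w true n = j
    · have h3 : cnt w true n + 1 ≤ cnt w false n := by omega
      cases hl : lastB w
      · simp [hb]
        intro h; omega
      · simp [hb]
        intro h; omega
    · have e1 : ¬ (Ballot w ∧ cnt w true n = j ∧ lastB w = false) := fun h => hb ⟨h.1, h.2.1⟩
      have e2 : ¬ (Ballot w ∧ cnt w true n = j ∧ lastB w = true) := fun h => hb ⟨h.1, h.2.1⟩
      have e3 : ¬ ((Ballot w ∧ cnt w true n + 1 ≤ cnt w false n) ∧ cnt w true n = j) :=
        fun h => hb ⟨h.1.1, h.2⟩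
      rw [if_neg e3, if_neg e1, if_neg e2]
      simp
  · apply sum_eq_zero
    intro w _
    rw [if_neg]
    rw [ballot_app, cnt_app_last]
    have hc := cnt_add w n le_rfl
    rintro ⟨⟨_, h1⟩, h2, _⟩
    have := h1 rfl
    simp at h2
    omega

lemma L_false (n j : ℕ) : L q (n + 1) j false = q ^ n * (L q n j false + L q n j true) := by
  classical
  unfold L
  rw [sum_app]
  have h0 : ∑ w : Fin n → Bool, (if Ballot (app w true) ∧ cnt (app w true) true (n + 1) = j ∧
      lastB (app w true) = false then q ^ lstat (app w true) else 0) = 0 := by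
    apply sum_eq_zero
    intro w _
    rw [if_neg]
    rw [lastB_app]
    simp
  rw [h0, add_zero, ← sum_add_distrib, mul_sum]
  apply sum_congr rfl
  intro w _
  rw [ballot_app, cnt_app_last, lastB_app, lstat_app]
  simp only [Bool.false_eq_true, false_imp_iff, and_true, if_false, add_zero, false_and, and_false,
    not_false_eq_true, if_true]
  by_cases hb : Ballot w ∧ cnt w true n = j
  · cases hl : lastB w
    · simp [hb, pow_add, mul_comm]
    · simp [hb, pow_add, mul_comm]
  · have e1 : ¬ (Ballot w ∧ cnt w true n = j ∧ lastB w = false) := fun h => hb ⟨h.1, h.2.1⟩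
    have e2 : ¬ (Ballot w ∧ cnt w true n = j ∧ lastB w = true) := fun h => hb ⟨h.1, h.2.1⟩
    rw [if_neg hb, if_neg e1, if_neg e2]
    simp

lemma L_true_zero (n : ℕ) : L q (n + 1) 0 true = 0 := by
  classical
  unfold L
  rw [sum_app]
  rw [sum_eq_zero, sum_eq_zero, add_zero]
  · intro w _
    rw [if_neg]
    rw [cnt_app_last]
    simp
  · intro w _
    rw [if_neg]
    rw [lastB_app]
    simp

lemma L_true (n j : ℕ) : L q (n + 1) (j + 1) true =
    if 2 * (j + 1) ≤ n + 1 then (if 2 * j + 2 ≤ n then 1 else q ^ n) * L q n j false +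
      q ^ n * L q n j true else 0 := by
  classical
  unfold L
  rw [sum_app]
  have h0 : ∑ w : Fin n → Bool, (if Ballot (app w false) ∧
      cnt (app w false) true (n + 1) = j + 1 ∧
      lastB (app w false) = true then q ^ lstat (app w false) else 0) = 0 := by
    apply sum_eq_zero
    intro w _
    rw [if_neg]
    rw [lastB_app]
    simp
  rw [h0, zero_add]
  split_ifs with hj hj2
  · rw [mul_sum, mul_sum, ← sum_add_distrib]
    apply sum_congr rfl
    intro w _
    rw [ballot_app, cnt_app_last, lastB_app, lstat_app]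
    have hc := cnt_add w n le_rfl
    simp only [true_imp_iff, if_true, and_true, Nat.add_right_cancel_iff, true_and]
    by_cases hb : Ballot w ∧ cnt w true n = j
    · have h3 : cnt w true n + 1 ≤ cnt w false n := by omega
      have h4 : cnt w true n + 2 ≤ cnt w false n := by omega
      have e3 : ((Ballot w ∧ cnt w true n + 1 ≤ cnt w false n) ∧ cnt w true n = j) :=
        ⟨⟨hb.1, h3⟩, hb.2⟩
      rw [if_pos e3]
      cases hl : lastB w
      · rw [if_neg (by simpa using h4)]
        simp [hb]
      · simp [hb, pow_add, mul_comm]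
    · have e1 : ¬ (Ballot w ∧ cnt w true n = j ∧ lastB w = false) := fun h => hb ⟨h.1, h.2.1⟩
      have e2 : ¬ (Ballot w ∧ cnt w true n = j ∧ lastB w = true) := fun h => hb ⟨h.1, h.2.1⟩
      have e3 : ¬ ((Ballot w ∧ cnt w true n + 1 ≤ cnt w false n) ∧ cnt w true n = j) :=
        fun h => hb ⟨h.1.1, h.2⟩
      rw [if_neg e3, if_neg e1, if_neg e2]
      simp
  · rw [mul_sum, mul_sum, ← sum_add_distrib]
    apply sum_congr rfl
    intro w _
    rw [ballot_app, cnt_app_last, lastB_app, lstat_app]
    have hc := cnt_add w n le_rfl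
    simp only [true_imp_iff, if_true, and_true, Nat.add_right_cancel_iff, true_and]
    by_cases hb : Ballot w ∧ cnt w true n = j
    · have h3 : cnt w true n + 1 ≤ cnt w false n := by omega
      have h4 : ¬ cnt w true n + 2 ≤ cnt w false n := by omega
      have e3 : ((Ballot w ∧ cnt w true n + 1 ≤ cnt w false n) ∧ cnt w true n = j) :=
        ⟨⟨hb.1, h3⟩, hb.2⟩
      rw [if_pos e3]
      cases hl : lastB w
      · rw [if_pos (by simp [h4])]
        simp [hb, pow_add, mul_comm]
      · simp [hb, pow_add, mul_comm]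
    · have e1 : ¬ (Ballot w ∧ cnt w true n = j ∧ lastB w = false) := fun h => hb ⟨h.1, h.2.1⟩
      have e2 : ¬ (Ballot w ∧ cnt w true n = j ∧ lastB w = true) := fun h => hb ⟨h.1, h.2.1⟩
      have e3 : ¬ ((Ballot w ∧ cnt w true n + 1 ≤ cnt w false n) ∧ cnt w true n = j) :=
        fun h => hb ⟨h.1.1, h.2⟩
      rw [if_neg e3, if_neg e1, if_neg e2]
      simp
  · apply sum_eq_zero
    intro w _
    rw [if_neg]
    rw [ballot_app, cnt_app_last]
    have hc := cnt_add w n le_rfl
    rintro ⟨⟨_, h1⟩, h2, _⟩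
    have := h1 rfl
    simp at h2
    omega

/-- The sum over all ballot words. -/
noncomputable def VV (n j : ℕ) : K := V q n j false + V q n j true

/-- The sum over all ballot words. -/
noncomputable def LL (n j : ℕ) : K := L q n j false + L q n j true

lemma V_big (n j : ℕ) (b : Bool) (h : n < 2 * j) : V q n j b = 0 := by
  classical
  unfold V
  apply sum_eq_zero
  intro w _
  rw [if_neg]
  rintro ⟨h1, h2, _⟩
  have h3 := h1 n le_rfl
  have h4 := cnt_add w n le_rfl
  omega

lemma L_big (n j : ℕ) (b : Bool) (h : n < 2 * j) : L q n j b = 0 := by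
  classical
  unfold L
  apply sum_eq_zero
  intro w _
  rw [if_neg]
  rintro ⟨h1, h2, _⟩
  have h3 := h1 n le_rfl
  have h4 := cnt_add w n le_rfl
  omega

lemma VV_zero (n : ℕ) : VV q n 0 = 1 := by
  induction n with
  | zero =>
    unfold VV V
    simp [Ballot, cnt_zero, lastB, maj]
  | succ n ih =>
    unfold VV at ih ⊢
    rw [V_false, V_true_zero, add_zero]
    cases n with
    | zero =>
      simpa using ih
    | succ n =>
      rw [V_true_zero] at ih ⊢
      simpa using ih

lemma LL_zero (n : ℕ) : LL q n 0 = q ^ (n.choose 2) := by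
  induction n with
  | zero =>
    unfold LL L
    simp [Ballot, cnt_zero, lastB, lstat]
  | succ n ih =>
    unfold LL at ih ⊢
    rw [L_false, L_true_zero, add_zero, ih, ← pow_add]
    congr 1
    rw [Nat.choose_succ_succ' n 1]
    simp

lemma VV_diag (n j : ℕ) (h : n + 1 = 2 * (j + 1)) : VV q (n + 1) (j + 1) = VV q n j := by
  unfold VV
  rw [V_false, V_true, if_pos (by omega), V_big q n (j + 1) _ (by omega),
    V_big q n (j + 1) _ (by omega)]
  ring

lemma LL_diag (n j : ℕ) (h : n + 1 = 2 * (j + 1)) :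
    LL q (n + 1) (j + 1) = q ^ n * LL q n j := by
  unfold LL
  rw [L_false, L_true, if_pos (by omega), if_neg (by omega), L_big q n (j + 1) _ (by omega),
    L_big q n (j + 1) _ (by omega)]
  ring

lemma VV_rec (n j : ℕ) (h : 2 * (j + 1) ≤ n + 1) : VV q (n + 2) (j + 1) =
    VV q (n + 1) (j + 1) + VV q (n + 1) j - (1 - q ^ (n + 1)) * VV q n j := by
  have e1 : VV q (n + 2) (j + 1) = V q (n + 1) (j + 1) false +
      q ^ (n + 1) * V q (n + 1) (j + 1) true + VV q (n + 1) j := by
    unfold VV
    rw [V_false q (n + 1) (j + 1), V_true q (n + 1) j, if_pos (by omega)]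
  have e2 : V q (n + 1) (j + 1) true = VV q n j := by
    unfold VV
    rw [V_true, if_pos h]
  have e3 : VV q (n + 1) (j + 1) = V q (n + 1) (j + 1) false + V q (n + 1) (j + 1) true := rfl
  rw [e1, e3, e2]
  ring

lemma LL_rec (n j : ℕ) (h : 2 * (j + 1) ≤ n + 1) : LL q (n + 2) (j + 1) =
    q ^ (n + 1) * (LL q (n + 1) (j + 1) + LL q (n + 1) j) +
      (1 - q ^ (n + 1)) * q ^ n * LL q n j := by
  have e1 : LL q (n + 2) (j + 1) = q ^ (n + 1) * LL q (n + 1) (j + 1) +
      (L q (n + 1) j false + q ^ (n + 1) * L q (n + 1) j true) := by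
    unfold LL
    rw [L_false q (n + 1) (j + 1), L_true q (n + 1) j, if_pos (by omega), if_pos (by omega)]
    ring
  have e2 : L q (n + 1) j false = q ^ n * LL q n j := by
    unfold LL
    rw [L_false]
  have e3 : LL q (n + 1) j = L q (n + 1) j false + L q (n + 1) j true := rfl
  rw [e1, e3, e2]
  ring

/-- The sets of the high peaks are distributed as the sets of the valleys. -/
lemma LL_eq (hq : q ≠ 0) (n : ℕ) : ∀ j, 2 * j ≤ n →
    LL q n j = q ^ (n.choose 2) * VV q⁻¹ n j := by
  induction n using Nat.strong_induction_on with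
  | _ n ih =>
    intro j hj
    cases j with
    | zero => rw [LL_zero, VV_zero, mul_one]
    | succ j =>
      obtain ⟨m, rfl⟩ : ∃ m, n = m + 2 := ⟨n - 2, by omega⟩
      by_cases hd : m + 2 = 2 * (j + 1)
      · rw [LL_diag q (m + 1) j (by omega), VV_diag q⁻¹ (m + 1) j (by omega),
          ih (m + 1) (by omega) j (by omega), ← mul_assoc, ← pow_add]
        congr 2
        rw [Nat.choose_succ_succ' (m + 1) 1]
        simp
      · rw [LL_rec q m j (by omega), VV_rec q⁻¹ m j (by omega),
          ih (m + 1) (by omega) j (by omega), ih (m + 1) (by omega) (j + 1) (by omega),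
          ih m (by omega) j (by omega)]
        have c1 : (m + 2).choose 2 = m + 1 + (m + 1).choose 2 := by
          rw [Nat.choose_succ_succ' (m + 1) 1]
          simp
        have c2 : (m + 1).choose 2 = m + m.choose 2 := by
          rw [Nat.choose_succ_succ' m 1]
          simp
        have h1 : q ^ (m + 2).choose 2 = q ^ (m + 1) * (q ^ m * q ^ m.choose 2) := by
          rw [c1, c2, ← pow_add, ← pow_add]
        have h2 : q ^ (m + 1).choose 2 = q ^ m * q ^ m.choose 2 := by
          rw [c2, ← pow_add]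
        rw [h1, h2]
        have h3 : q ^ (m + 1) * q⁻¹ ^ (m + 1) = 1 := by
          rw [← mul_pow, mul_inv_cancel₀ hq, one_pow]
        linear_combination (-(q ^ m * q ^ m.choose 2 * VV q⁻¹ m j)) * h3

/-- `[k]_q`. -/
def qn (k : ℕ) : K := ∑ i ∈ range k, q ^ i

/-- `[k]_q!`. -/
def qf (k : ℕ) : K := ∏ i ∈ range k, qn q (i + 1)

lemma qn_mul (k : ℕ) : (1 - q) * qn q k = 1 - q ^ k := by
  unfold qn
  exact mul_neg_geom_sum q k

lemma qn_eq (hq1 : q ≠ 1) (k : ℕ) : qn q k = (1 - q ^ k) / (1 - q) := by
  have h1 : (1 - q) ≠ 0 := sub_ne_zero.2 hq1.symm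
  rw [eq_div_iff h1, ← qn_mul]
  ring

lemma qf_succ (k : ℕ) : qf q (k + 1) = qf q k * qn q (k + 1) := by
  unfold qf
  rw [prod_range_succ]

lemma VV_closed (hq1 : q ≠ 1) (n : ℕ) : ∀ a j, a + j = n → j ≤ a →
    VV q n j * (qf q (a + 1) * qf q j) = qf q n * (qn q (a + 1) - q * qn q j) := by
  have h1 : (1 - q) ≠ 0 := sub_ne_zero.2 hq1.symm
  induction n using Nat.strong_induction_on with
  | _ n ih =>
    intro a j haj hja
    cases j with
    | zero =>
      rw [VV_zero]
      obtain rfl : a = n := by omega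
      rw [qf_succ]
      simp [qf, qn]
    | succ j =>
      obtain ⟨m, rfl⟩ : ∃ m, n = m + 2 := ⟨n - 2, by omega⟩
      obtain ⟨b, rfl⟩ : ∃ b, a = b + 1 := ⟨a - 1, by omega⟩
      by_cases hd : b = j
      · subst hd
        have i1 := ih (m + 1) (by omega) (b + 1) b (by omega) (by omega)
        rw [VV_diag q (m + 1) b (by omega)]
        obtain rfl : m = 2 * b := by omega
        rw [qf_succ q b, qf_succ q (2 * b + 1)]
        have e : (qn q (b + 2) - q * qn q b) * qn q (b + 1) =
            qn q (2 * b + 1 + 1) * (qn q (b + 2) - q * qn q (b + 1)) := by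
          rw [qn_eq q hq1, qn_eq q hq1, qn_eq q hq1, qn_eq q hq1]
          field_simp
          ring
        linear_combination qn q (b + 1) * i1 + qf q (2 * b + 1) * e
      · have iA := ih (m + 1) (by omega) b (j + 1) (by omega) (by omega)
        have iB := ih (m + 1) (by omega) (b + 1) j (by omega) (by omega)
        have iC := ih m (by omega) b j (by omega) (by omega)
        obtain rfl : m = b + j := by omega
        rw [VV_rec q (b + j) j (by omega)]
        rw [qf_succ q j] at iA ⊢
        rw [qf_succ q (b + 1)] at iB ⊢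
        rw [qf_succ q (b + j + 1), qf_succ q (b + j)]
        rw [qf_succ q (b + j)] at iA iB
        have e : qn q (b + j + 1 + 1) * (qn q (b + 1 + 1) - q * qn q (j + 1)) =
            (qn q (b + 1) - q * qn q (j + 1)) * qn q (b + 1 + 1) +
            (qn q (b + 1 + 1) - q * qn q j) * qn q (j + 1) -
            (1 - q) * (qn q (b + 1) - q * qn q j) * qn q (b + 1 + 1) * qn q (j + 1) := by
          rw [qn_eq q hq1, qn_eq q hq1, qn_eq q hq1, qn_eq q hq1, qn_eq q hq1]
          field_simp
          ring
        have e2 := qn_mul q (b + j + 1)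
        linear_combination qn q (b + 1 + 1) * iA + qn q (j + 1) * iB -
          (1 - q ^ (b + j + 1)) * qn q (b + 1 + 1) * qn q (j + 1) * iC -
          qf q (b + j) * qn q (b + j + 1) * e +
          qf q (b + j) * (qn q (b + 1) - q * qn q j) * qn q (b + 1 + 1) * qn q (j + 1) * e2

end sums

lemma qn_inv {q : ℚ} (hq : q ≠ 0) (k : ℕ) : qn q⁻¹ (k + 1) * q ^ k = qn q (k + 1) := by
  unfold qn
  rw [sum_mul, ← sum_range_reflect]
  apply sum_congr rfl
  intro i hi
  rw [mem_range] at hi
  have h1 : k + 1 - 1 - i = k - i := by omega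
  rw [h1]
  have h2 : q ^ k = q ^ (k - i) * q ^ i := by
    rw [← pow_add]
    congr 1
    omega
  rw [h2, ← mul_assoc, ← mul_pow, inv_mul_cancel₀ hq, one_pow, one_mul]

lemma qf_inv {q : ℚ} (hq : q ≠ 0) (k : ℕ) : qf q⁻¹ k * q ^ (k.choose 2) = qf q k := by
  induction k with
  | zero => simp [qf]
  | succ k ih =>
    rw [qf_succ, qf_succ, Nat.choose_succ_succ' k 1, Nat.choose_one_right, pow_add, ← ih,
      ← qn_inv hq]
    ring

lemma qf_pos {q : ℚ} (hq : 0 < q) (k : ℕ) : 0 < qf q k := by
  unfold qf
  apply prod_pos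
  intro i _
  unfold qn
  apply sum_pos
  · intro j _
    positivity
  · simp

lemma two_choose (n : ℕ) : (2 * n).choose 2 = n * n + n * (n - 1) := by
  rw [Nat.choose_two_right]
  rcases n with _ | n
  · simp
  · have : 2 * (n + 1) * (2 * (n + 1) - 1) = 2 * ((n + 1) * (n + 1) + (n + 1) * (n + 1 - 1)) := by
      have h : 2 * (n + 1) - 1 = 2 * n + 1 := by omega
      have h' : n + 1 - 1 = n := by omega
      rw [h, h']
      ring
    rw [this]
    simp

lemma choose_add (n : ℕ) : (n + 1).choose 2 + n.choose 2 = n * n := by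
  induction n with
  | zero => simp
  | succ n ih =>
    rw [Nat.choose_succ_succ' (n + 1) 1, Nat.choose_one_right]
    have h : n.succ.choose 2 = n + n.choose 2 := by
      rw [Nat.choose_succ_succ' n 1, Nat.choose_one_right]
    have h2 : (n + 1).choose 2 = n + n.choose 2 := h
    nlinarith [ih]

lemma VV_diag_closed {q : ℚ} (hq1 : q ≠ 1) (n : ℕ) :
    VV q (2 * n) n * (qf q (n + 1) * qf q n) = qf q (2 * n) := by
  have h := VV_closed q hq1 (2 * n) n n (by omega) le_rfl
  rw [h]
  have : qn q (n + 1) - q * qn q n = 1 := by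
    unfold qn
    rw [sum_range_succ', mul_sum, pow_zero]
    simp only [pow_succ']
    ring
  rw [this, mul_one]

/-- The polynomial `c_n` is palindromic, in the form needed. -/
lemma VV_inv {q : ℚ} (hq : 0 < q) (hq1 : q ≠ 1) (n : ℕ) :
    q ^ ((2 * n).choose 2) * VV q⁻¹ (2 * n) n = q ^ (n ^ 2) * VV q (2 * n) n := by
  have h1 := VV_diag_closed hq1 n
  have hqi : q⁻¹ ≠ 1 := by
    intro h
    exact hq1 (inv_eq_one.1 h)
  have h2 := VV_diag_closed hqi n
  have h3 := qf_inv hq.ne' (n + 1)
  have h4 := qf_inv hq.ne' n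
  have h5 := qf_inv hq.ne' (2 * n)
  have p1 := qf_pos hq (n + 1)
  have p2 := qf_pos hq n
  have hne : qf q (n + 1) * qf q n ≠ 0 := by positivity
  apply mul_right_cancel₀ hne
  calc q ^ ((2 * n).choose 2) * VV q⁻¹ (2 * n) n * (qf q (n + 1) * qf q n)
      = q ^ ((n + 1).choose 2 + n.choose 2) * ((VV q⁻¹ (2 * n) n * (qf q⁻¹ (n + 1) * qf q⁻¹ n)) *
          q ^ ((2 * n).choose 2)) := by
        rw [← h3, ← h4, pow_add]
        ring
    _ = q ^ (n ^ 2) * VV q (2 * n) n * (qf q (n + 1) * qf q n) := by
        rw [h2, h5, choose_add, mul_assoc, h1, sq]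

lemma LL_final {q : ℚ} (hq : 0 < q) (hq1 : q ≠ 1) (n : ℕ) :
    LL q (2 * n) n = q ^ (n ^ 2) * VV q (2 * n) n := by
  rw [LL_eq q hq.ne' (2 * n) n le_rfl, VV_inv hq hq1]

/-! ### Linear extensions and words -/

/-- The word of a permutation. -/
def word {s : ℕ} (π : Equiv.Perm (Fin (s * 2))) : Fin (s * 2) → Bool :=
  fun a => decide ((π a).1 % 2 = 0)

/-- The entries of the linear extension with a given word. -/
def val (s : ℕ) (w : Fin (s * 2) → Bool) (a : Fin (s * 2)) : ℕ :=
  2 * (s - 1 - cnt w (w a) a.1) + if w a = true then 0 else 1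

lemma card_parity (s i r : ℕ) (hr : r < 2) :
    (univ.filter (fun y : Fin (s * 2) => 2 * i + r < y.1 ∧ y.1 % 2 = r)).card = s - 1 - i := by
  have h : (Ioo i s).card = s - 1 - i := by
    rw [Nat.card_Ioo]
    omega
  rw [← h]
  symm
  apply card_bij (fun j hj => (⟨2 * j + r, by rw [mem_Ioo] at hj; omega⟩ : Fin (s * 2)))
  · intro j hj
    rw [mem_Ioo] at hj
    simp only [mem_filter, mem_univ, true_and]
    omega
  · intro a _ b _ hab
    simp only [Fin.mk.injEq] at hab
    omega
  · intro y hy
    simp only [mem_filter, mem_univ, true_and] at hy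
    refine ⟨y.1 / 2, ?_, ?_⟩
    · rw [mem_Ioo]
      have := y.2
      omega
    · apply Fin.ext
      simp only
      omega

lemma card_comp {n : ℕ} (π : Equiv.Perm (Fin n)) (P : Fin n → Prop) [DecidablePred P] :
    (univ.filter (fun i => P (π i))).card = (univ.filter P).card := by
  rw [card_filter, card_filter]
  exact Equiv.sum_comp π (fun y => if P y then 1 else 0)

lemma linExt_lt {s : ℕ} {π : Equiv.Perm (Fin (s * 2))} (h : IsLinExt s 2 π) {a b : Fin (s * 2)}
    (hab : (π a).1 % 2 = (π b).1 % 2) (hlt : (π a).1 < (π b).1) : b < a := by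
  apply h b a
  · rintro rfl
    omega
  · unfold Below
    omega

lemma val_word {s : ℕ} {π : Equiv.Perm (Fin (s * 2))} (h : IsLinExt s 2 π) (a : Fin (s * 2)) :
    (π a).1 = val s (word π) a := by
  have key : cnt (word π) (word π a) a.1 = s - 1 - (π a).1 / 2 := by
    rw [← card_parity s ((π a).1 / 2) ((π a).1 % 2) (by omega)]
    have e : 2 * ((π a).1 / 2) + (π a).1 % 2 = (π a).1 := by omega
    rw [e]
    rw [← card_comp π (fun y : Fin (s * 2) => (π a).1 < y.1 ∧ y.1 % 2 = (π a).1 % 2)]
    unfold cnt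
    apply congrArg card
    ext i
    simp only [mem_filter, mem_univ, true_and]
    constructor
    · rintro ⟨h1, h2⟩
      have h3 : (π i).1 % 2 = (π a).1 % 2 := by
        unfold word at h2
        rw [decide_eq_decide] at h2
        omega
      refine ⟨?_, h3⟩
      by_contra hcon
      rcases Nat.lt_or_ge (π i).1 (π a).1 with h4 | h4
      · have := linExt_lt h h3 h4
        rw [Fin.lt_def] at this
        omega
      · have h5 : π i = π a := Fin.ext (by omega)
        have h6 := π.injective h5
        rw [h6] at h1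
        omega
    · rintro ⟨h1, h2⟩
      refine ⟨linExt_lt h h2.symm h1, ?_⟩
      unfold word
      rw [decide_eq_decide, h2]
  unfold val
  rw [key]
  have hlt := (π a).2
  simp only [word, decide_eq_true_eq]
  split_ifs with h1 <;> omega

lemma cnt_mono {n : ℕ} (w : Fin n → Bool) (b : Bool) {k l : ℕ} (h : k ≤ l) :
    cnt w b k ≤ cnt w b l := by
  unfold cnt
  apply card_le_card
  intro i
  simp only [mem_filter, mem_univ, true_and]
  rintro ⟨h1, h2⟩
  exact ⟨by omega, h2⟩

lemma cnt_lt {n : ℕ} (w : Fin n → Bool) (a : Fin n) {l : ℕ} (h : a.1 < l) (_hl : l ≤ n) :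
    cnt w (w a) a.1 < cnt w (w a) l := by
  have h1 := cnt_succ w (w a) a.1 a.2
  have h2 : cnt w (w a) (a.1 + 1) ≤ cnt w (w a) l := cnt_mono w _ (by omega)
  simp at h1
  omega

/-- Words with `s` letters `2`. -/
lemma cnt_total {s : ℕ} (w : Fin (s * 2) → Bool) (h : cnt w true (s * 2) = s) (b : Bool) :
    cnt w b (s * 2) = s := by
  have := cnt_add w (s * 2) le_rfl
  cases b
  · omega
  · exact h

lemma ballot_word {s : ℕ} {π : Equiv.Perm (Fin (s * 2))} (h : IsLinExt s 2 π) :
    Ballot (word π) := by
  intro k _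
  unfold cnt
  have hx : ∀ a : Fin (s * 2), word π a = true → (π a).1 + 1 < s * 2 := by
    intro a ha
    simp only [word, decide_eq_true_eq] at ha
    have := (π a).2
    omega
  apply card_le_card_of_injOn
    (fun a => if h : (π a).1 + 1 < s * 2 then π.symm ⟨(π a).1 + 1, h⟩ else a)
  · intro a ha
    simp only [coe_filter, mem_univ, true_and, Set.mem_ofPred_eq] at ha ⊢
    have h1 := hx a ha.2
    rw [dif_pos h1]
    have h2 : π.symm ⟨(π a).1 + 1, h1⟩ < a := by
      apply h
      · intro h3
        have h4 : π (π.symm ⟨(π a).1 + 1, h1⟩) = π a := by rw [h3]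
        rw [Equiv.apply_symm_apply] at h4
        have h5 := congrArg Fin.val h4
        simp at h5
      · rw [Equiv.apply_symm_apply]
        have h3 := ha.2
        simp only [word, decide_eq_true_eq] at h3
        unfold Below
        simp only
        omega
    rw [Fin.lt_def] at h2
    refine ⟨by omega, ?_⟩
    have h3 := ha.2
    simp only [word, decide_eq_true_eq] at h3
    simp only [word, Equiv.apply_symm_apply, decide_eq_false_iff_not]
    omega
  · intro a ha b hb hab
    simp only [coe_filter, mem_univ, true_and, Set.mem_ofPred_eq] at ha hb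
    simp only at hab
    rw [dif_pos (hx a ha.2), dif_pos (hx b hb.2)] at hab
    have h1 := π.symm.injective hab
    simp only [Fin.mk.injEq, Nat.add_right_cancel_iff] at h1
    exact π.injective (Fin.ext h1)

lemma cnt_word {s : ℕ} (π : Equiv.Perm (Fin (s * 2))) : cnt (word π) true (s * 2) = s := by
  unfold cnt
  have h1 : (univ.filter (fun i : Fin (s * 2) => i.1 < s * 2 ∧ word π i = true)) =
      univ.filter (fun i => (π i).1 % 2 = 0) := by
    ext i
    have := i.2
    simp [word]
  rw [h1, card_comp π (fun y : Fin (s * 2) => y.1 % 2 = 0)]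
  rcases Nat.eq_zero_or_pos s with hs | hs
  · subst hs
    simp
  · have h2 := card_parity s 0 0 (by omega)
    have h3 : (univ.filter (fun y : Fin (s * 2) => y.1 % 2 = 0)) =
        insert ⟨0, by omega⟩ (univ.filter (fun y : Fin (s * 2) => 2 * 0 + 0 < y.1 ∧ y.1 % 2 = 0)) := by
      ext y
      simp only [mem_filter, mem_univ, true_and, mem_insert, Fin.ext_iff]
      omega
    rw [h3, card_insert_of_notMem, h2]
    · omega
    · simp

section perm

variable {s : ℕ} (w : Fin (s * 2) → Bool) (hw : Ballot w) (hc : cnt w true (s * 2) = s)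

include hc in
lemma cnt_lt_s (a : Fin (s * 2)) : cnt w (w a) a.1 < s := by
  have h1 := cnt_lt w a a.2 le_rfl
  rwa [cnt_total w hc] at h1

include hc in
lemma val_lt (a : Fin (s * 2)) : val s w a < s * 2 := by
  have h1 := cnt_lt_s w hc a
  unfold val
  split_ifs <;> omega

include hc in
lemma val_inj {a b : Fin (s * 2)} (h : val s w a = val s w b) : a = b := by
  have h1 := cnt_lt_s w hc a
  have h2 := cnt_lt_s w hc b
  unfold val at h
  have hab : w a = w b := by
    cases ha : w a <;> cases hb : w b <;> simp [ha, hb] at h ⊢ <;> omega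
  rw [hab] at h h1
  have h3 : cnt w (w b) a.1 = cnt w (w b) b.1 := by omega
  rcases lt_trichotomy a.1 b.1 with h4 | h4 | h4
  · have := cnt_lt w a h4 b.2.le
    rw [hab] at this
    omega
  · exact Fin.ext h4
  · have := cnt_lt w b h4 a.2.le
    omega

/-- The linear extension with the word `w`. -/
noncomputable def perm : Equiv.Perm (Fin (s * 2)) :=
  Equiv.ofBijective (fun a => (⟨val s w a, val_lt w hc a⟩ : Fin (s * 2)))
    (Finite.injective_iff_bijective.1 (fun a b h => val_inj w hc (by simpa using h)))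

lemma perm_val (a : Fin (s * 2)) : (perm w hc a).1 = val s w a := rfl

lemma val_mod (a : Fin (s * 2)) : val s w a % 2 = if w a = true then 0 else 1 := by
  unfold val
  split_ifs <;> omega

lemma word_perm : word (perm w hc) = w := by
  ext a
  unfold word
  rw [perm_val, val_mod]
  cases w a <;> simp

include hw in
lemma linExt_perm : IsLinExt s 2 (perm w hc) := by
  intro a b hab hB
  unfold Below at hB
  rw [perm_val, perm_val] at hB
  have ha := cnt_lt_s w hc a
  have hb := cnt_lt_s w hc b
  by_contra hcon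
  rw [not_lt] at hcon
  have hlt : b.1 < a.1 := by
    have h1 : b.1 ≤ a.1 := hcon
    have h2 : b.1 ≠ a.1 := fun h => hab (Fin.ext h.symm)
    omega
  have h1 := cnt_lt w b hlt a.2.le
  have h2 := hw (b.1 + 1) (by omega)
  rw [cnt_succ w _ b.1 b.2, cnt_succ w _ b.1 b.2] at h2
  have h3 : cnt w false b.1 ≤ cnt w false a.1 := cnt_mono w _ hlt.le
  simp only [Fin.eta] at h2
  obtain ⟨hB1, hB2⟩ := hB
  unfold val at hB1 hB2
  cases hwa : w a <;> cases hwb : w b <;> simp only [hwa, hwb] at hB1 hB2 ha hb h1 h2 <;>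
    simp at hB1 hB2 ha hb h1 h2 <;> omega

end perm

lemma avoids {s : ℕ} {π : Equiv.Perm (Fin (s * 2))} (h : IsLinExt s 2 π) : Avoids123 π := by
  rintro ⟨a, b, c, hab, hbc, h1, h2⟩
  rw [Fin.lt_def] at h1 h2
  have key : ∀ x y : Fin (s * 2), x < y → (π x).1 < (π y).1 → (π x).1 % 2 ≠ (π y).1 % 2 := by
    intro x y hxy hlt hmod
    have := linExt_lt h hmod hlt
    exact absurd hxy (not_lt.2 this.le)
  have k1 := key a b hab h1
  have k2 := key b c hbc h2
  have k3 := key a c (hab.trans hbc) (h1.trans h2)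
  omega

lemma maj_eq {s : ℕ} {π : Equiv.Perm (Fin (s * 2))} (h : IsLinExt s 2 π) :
    maj π = lstat (word π) := by
  unfold maj lstat
  apply sum_congr rfl
  intro i _
  by_cases hi : i.1 + 1 < s * 2
  · rw [dif_pos hi, dif_pos hi]
    congr 1
    have hB := ballot_word h
    have hc := cnt_word π
    have e1 := val_word h i
    have e2 := val_word h ⟨i.1 + 1, hi⟩
    have c1 := cnt_lt_s (word π) hc i
    have c2 := cnt_lt_s (word π) hc ⟨i.1 + 1, hi⟩
    have b1 := hB i.1 (by omega)
    have b2 := hB (i.1 + 1) (by omega)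
    have s1 := cnt_succ (word π) false i.1 i.2
    have s2 := cnt_succ (word π) true i.1 i.2
    rw [Fin.lt_def, e1, e2]
    unfold val
    simp only [Fin.eta] at s1 s2 e1 e2 c1 c2 ⊢
    rw [eq_iff_iff]
    cases hw1 : word π i <;> cases hw2 : word π ⟨i.1 + 1, hi⟩ <;>
      simp only [hw1, hw2] at s1 s2 c1 c2 ⊢ <;> simp at s1 s2 c1 c2 ⊢ <;> omega
  · rw [dif_neg hi, dif_neg hi]

/-! ### The theorem -/

open Classical in
lemma VV_sum (q : ℚ) (n j : ℕ) : VV q n j =
    ∑ w : Fin n → Bool, if Ballot w ∧ cnt w true n = j then q ^ maj w else 0 := by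
  unfold VV V
  rw [← sum_add_distrib]
  apply sum_congr rfl
  intro w _
  by_cases hb : Ballot w ∧ cnt w true n = j
  · cases hl : lastB w <;> simp [hb]
  · have e1 : ¬ (Ballot w ∧ cnt w true n = j ∧ lastB w = false) := fun h => hb ⟨h.1, h.2.1⟩
    have e2 : ¬ (Ballot w ∧ cnt w true n = j ∧ lastB w = true) := fun h => hb ⟨h.1, h.2.1⟩
    rw [if_neg hb, if_neg e1, if_neg e2, add_zero]

open Classical in
lemma LL_sum (q : ℚ) (n j : ℕ) : LL q n j =
    ∑ w : Fin n → Bool, if Ballot w ∧ cnt w true n = j then q ^ lstat w else 0 := by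
  unfold LL L
  rw [← sum_add_distrib]
  apply sum_congr rfl
  intro w _
  by_cases hb : Ballot w ∧ cnt w true n = j
  · cases hl : lastB w <;> simp [hb]
  · have e1 : ¬ (Ballot w ∧ cnt w true n = j ∧ lastB w = false) := fun h => hb ⟨h.1, h.2.1⟩
    have e2 : ¬ (Ballot w ∧ cnt w true n = j ∧ lastB w = true) := fun h => hb ⟨h.1, h.2.1⟩
    rw [if_neg hb, if_neg e1, if_neg e2, add_zero]

lemma catalan_iff (n : ℕ) (w : Fin (2 * n) → Bool) :
    IsCatalan n w ↔ Ballot w ∧ cnt w true (2 * n) = n := by
  unfold IsCatalan Ballot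
  have := cnt_add w (2 * n) le_rfl
  constructor
  · rintro ⟨_, h2, h3⟩
    exact ⟨h3, h2⟩
  · rintro ⟨h1, h2⟩
    exact ⟨by omega, h2, h1⟩

lemma aeval_c (q : ℚ) (n : ℕ) : Polynomial.aeval q (c n) = VV q (2 * n) n := by
  classical
  rw [VV_sum]
  unfold c
  rw [map_sum, sum_filter]
  apply sum_congr rfl
  intro w _
  simp only [catalan_iff, map_pow, Polynomial.aeval_X]

lemma sum_NE (q : ℚ) (s : ℕ) : ∑ π ∈ NE s 2, q ^ maj π = LL q (2 * s) s := by
  classical
  have e : 2 * s = s * 2 := mul_comm _ _
  rw [e, LL_sum, ← sum_filter]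
  refine sum_bij' (fun π _ => word π)
    (fun w hw => perm w (by simpa using (mem_filter.1 hw).2.2)) ?_ ?_ ?_ ?_ ?_
  · intro π hπ
    simp only [NE, mem_filter, mem_univ, true_and] at hπ ⊢
    exact ⟨ballot_word hπ.1, cnt_word π⟩
  · intro w hw
    simp only [mem_filter, mem_univ, true_and] at hw
    simp only [NE, mem_filter, mem_univ, true_and]
    have := linExt_perm w hw.1 hw.2
    exact ⟨this, avoids this⟩
  · intro π hπ
    simp only [NE, mem_filter, mem_univ, true_and] at hπ
    ext a
    rw [perm_val]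
    exact (val_word hπ.1 a).symm
  · intro w hw
    exact word_perm w _
  · intro π hπ
    simp only [NE, mem_filter, mem_univ, true_and] at hπ
    rw [maj_eq hπ.1]

open Polynomial in
/-- **MP_1fed52, Q1 is true.** For every `s ≥ 1`,
`NE_{s,2}(123)[q] = q ^ (s ^ 2) c_s(q)`, as polynomials in `q`. -/
theorem result (s : ℕ) (_hs : 1 ≤ s) :
    ∑ π ∈ NE s 2, (X : ℤ[X]) ^ maj π = X ^ (s ^ 2) * c s := by
  apply Polynomial.map_injective (Int.castRingHom ℚ) Int.cast_injective
  apply Polynomial.eq_of_infinite_eval_eq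
  apply Set.Infinite.mono (s := Set.Ioi (1 : ℚ))
  · intro q hq
    have hq1 : (1 : ℚ) < q := hq
    have h : Polynomial.aeval q (∑ π ∈ NE s 2, (X : ℤ[X]) ^ maj π) =
        Polynomial.aeval q (X ^ (s ^ 2) * c s) := by
      rw [map_sum, map_mul, map_pow, Polynomial.aeval_X, aeval_c]
      simp only [map_pow, Polynomial.aeval_X]
      rw [sum_NE, LL_final (by linarith) hq1.ne']
    simp only [Set.mem_ofPred_eq]
    rw [Polynomial.aeval_def, Polynomial.aeval_def] at h
    rw [Polynomial.eval_map, Polynomial.eval_map]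
    exact h
  · exact Set.Ioi_infinite 1

end Pool.Agent.Results.MP_1fed52_co.MajorIndex
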